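import Mathlib
import Pool.Agent.V1154.BraidAbs2

open Classical

namespace Pool.Agent.Results.MP_31c3fe_co.GeodeticNumberTwo

open Pool.Agent.V1154.BraidAbs

/-- Type `Λ`: simply laced and triangle free. -/
def IsTypeLambda {B : Type*} (M : CoxeterMatrix B) : Prop :=
  (∀ s t, s ≠ t → M s t = 2 ∨ M s t = 3) ∧ ¬ ∃ s t u, M s t = 3 ∧ M t u = 3 ∧ M s u = 3

/-- A braid move replaces a consecutive factor `sts` by `tst`, where `m(s,t) = 3`. -/
def BraidMove {B : Type*} (M : CoxeterMatrix B) (β γ : List B) : Prop :=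
  ∃ (l r : List B) (s t : B), M s t = 3 ∧ β = l ++ [s, t, s] ++ r ∧ γ = l ++ [t, s, t] ++ r

/-- The braid class: all words obtained by finitely many braid moves. -/
def braidClass {B : Type*} (M : CoxeterMatrix B) (α : List B) : Set (List B) :=
  {β | Relation.ReflTransGen (BraidMove M) α β}

lemma BraidMove.symm {B : Type*} {M : CoxeterMatrix B} {β γ : List B} (h : BraidMove M β γ) :
    BraidMove M γ β := by
  obtain ⟨l, r, s, t, hst, h1, h2⟩ := h
  exact ⟨l, r, t, s, by rw [M.symmetric]; exact hst, h2, h1⟩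

/-- The braid graph. -/
def braidGraph {B : Type*} (M : CoxeterMatrix B) (α : List B) :
    SimpleGraph (braidClass M α) where
  Adj β γ := BraidMove M β.1 γ.1
  symm := ⟨fun _ _ h => BraidMove.symm h⟩
  loopless := ⟨fun β h => by
    obtain ⟨l, r, s, t, hst, h1, h2⟩ := h
    rw [h2] at h1
    have h3 : t = s := by
      have h4 : t = s ∧ s = t ∧ t = s := by simpa using h1
      exact h4.1
    rw [h3, M.diagonal] at hst
    omega⟩

/-- `I(u,v)`: the vertices lying on at least one shortest `u`-`v` path. -/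
def interval {V : Type*} (G : SimpleGraph V) (u v : V) : Set V :=
  {x | ∃ w : G.Walk u v, w.length = G.dist u v ∧ x ∈ w.support}

/-- The geodetic closure of `X`. -/
def geodeticClosure {V : Type*} (G : SimpleGraph V) (X : Set V) : Set V :=
  {x | ∃ u ∈ X, ∃ v ∈ X, x ∈ interval G u v}

/-- The geodetic number: the least size of a set whose geodetic closure is everything. -/
noncomputable def geodeticNumber {V : Type*} (G : SimpleGraph V) : ℕ :=
  sInf {n | ∃ X : Finset V, X.card = n ∧ geodeticClosure G (X : Set V) = Set.univ}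

section

variable {B : Type*} {M : CoxeterMatrix B}

/-- the relation on letters -/
def Rel (M : CoxeterMatrix B) (x y : Option B) : Prop :=
  ∃ s t, x = some s ∧ y = some t ∧ M s t = 3

/-- words as functions -/
def toWord (l : List B) : ℕ → Option B := fun i => l[i]?

lemma toWord_inj {l l' : List B} (h : toWord l = toWord l') : l = l' :=
  List.ext_getElem? (fun i => congrFun h i)

lemma toWord_move (l r : List B) (s t : B) (hst : M s t = 3) :
    avail (Rel M) l.length (toWord (l ++ [s, t, s] ++ r)) ∧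
      toWord (l ++ [t, s, t] ++ r) = mv l.length (toWord (l ++ [s, t, s] ++ r)) := by
  have key : ∀ (a b c : B) (j : ℕ), toWord (l ++ [a, b, c] ++ r) (l.length + j) =
      ([a, b, c] ++ r)[j]? := by
    intro a b c j
    unfold toWord
    rw [List.append_assoc, List.getElem?_append_right (by omega)]
    congr 1
    omega
  have key2 : ∀ (a b c : B) (i : ℕ), i < l.length → toWord (l ++ [a, b, c] ++ r) i = l[i]? := by
    intro a b c i hi
    unfold toWord
    rw [List.append_assoc, List.getElem?_append_left hi]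
  have k0 := fun a b c => key a b c 0
  have k1 := fun a b c => key a b c 1
  have k2 := fun a b c => key a b c 2
  simp only [Nat.add_zero] at k0
  refine ⟨⟨?_, ?_⟩, ?_⟩
  · rw [k0, k1]
    exact ⟨s, t, rfl, rfl, hst⟩
  · rw [k0, k2]; rfl
  · funext i
    rcases Nat.lt_or_ge i l.length with hi | hi
    · rw [mv_of_ne _ (by omega) (by omega) (by omega), key2 _ _ _ i hi, key2 _ _ _ i hi]
    · obtain ⟨j, rfl⟩ := Nat.exists_eq_add_of_le hi
      match j with
      | 0 => rw [Nat.add_zero, mv_0, k0, k1]; rfl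
      | 1 => rw [mv_1, k0, k1]; rfl
      | 2 => rw [mv_2, k2, k1]; rfl
      | j + 3 =>
        rw [mv_of_ne _ (by omega) (by omega) (by omega), key, key]
        rfl

lemma avail_list {c : ℕ} {β : List B} (h : avail (Rel M) c (toWord β)) :
    ∃ s t, M s t = 3 ∧ c + 3 ≤ β.length ∧ β = β.take c ++ [s, t, s] ++ β.drop (c+3) := by
  obtain ⟨⟨s, t, hs, ht, hst⟩, h2⟩ := h
  rw [hs] at h2
  unfold toWord at hs ht h2
  obtain ⟨l0, e0⟩ := List.getElem?_eq_some_iff.mp hs
  obtain ⟨l1, e1⟩ := List.getElem?_eq_some_iff.mp ht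
  obtain ⟨l2, e2⟩ := List.getElem?_eq_some_iff.mp h2
  refine ⟨s, t, hst, by omega, ?_⟩
  have d0 := List.drop_eq_getElem_cons l0
  have d1 := List.drop_eq_getElem_cons l1
  have d2 := List.drop_eq_getElem_cons l2
  rw [e0] at d0
  rw [e1] at d1
  rw [e2] at d2
  conv_lhs => rw [← List.take_append_drop c β, d0, d1, show c+1+1 = c+2 from rfl, d2]
  simp

lemma avail_move {c : ℕ} {β : List B} (h : avail (Rel M) c (toWord β)) :
    ∃ γ, BraidMove M β γ ∧ toWord γ = mv c (toWord β) := by
  obtain ⟨s, t, hst, hlen, hβ⟩ := avail_list h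
  refine ⟨β.take c ++ [t, s, t] ++ β.drop (c+3), ⟨_, _, s, t, hst, hβ, rfl⟩, ?_⟩
  have hl : (β.take c).length = c := by rw [List.length_take]; omega
  have := (toWord_move (M := M) (β.take c) (β.drop (c+3)) s t hst).2
  rw [hl, ← hβ] at this
  exact this

lemma move_avail {β γ : List B} (h : BraidMove M β γ) :
    ∃ c, avail (Rel M) c (toWord β) ∧ toWord γ = mv c (toWord β) := by
  obtain ⟨l, r, s, t, hst, rfl, rfl⟩ := h
  exact ⟨l.length, toWord_move l r s t hst⟩

/-- the class as a set of functions -/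
def cls (M : CoxeterMatrix B) (α : List B) : Set (ℕ → Option B) :=
  {f | ∃ β ∈ braidClass M α, f = toWord β}

variable {W : Type*} [Group W]

lemma braid_rel (cs : CoxeterSystem M W) {s t : B} (hst : M s t = 3) :
    cs.simple s * cs.simple t * cs.simple s = cs.simple t * cs.simple s * cs.simple t := by
  have h := cs.simple_mul_simple_pow s t
  rw [hst] at h
  have h1 : (cs.simple s * cs.simple t * cs.simple s) *
      (cs.simple t * cs.simple s * cs.simple t) = 1 := by
    rw [← h]
    simp only [pow_succ, pow_zero, one_mul, mul_assoc]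
  have h2 : (cs.simple t * cs.simple s * cs.simple t) *
      (cs.simple t * cs.simple s * cs.simple t) = 1 := by
    simp only [mul_assoc, CoxeterSystem.simple_mul_simple_cancel_left,
      CoxeterSystem.simple_mul_simple_self]
  exact mul_right_cancel (h1.trans h2.symm)

lemma move_prod (cs : CoxeterSystem M W) {β γ : List B} (h : BraidMove M β γ) :
    cs.wordProd γ = cs.wordProd β ∧ γ.length = β.length := by
  obtain ⟨l, r, s, t, hst, rfl, rfl⟩ := h
  refine ⟨?_, by simp⟩
  have := braid_rel cs hst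
  simp only [CoxeterSystem.wordProd_append, CoxeterSystem.wordProd_cons,
    CoxeterSystem.wordProd_nil, mul_one]
  rw [← mul_assoc (cs.simple t), ← mul_assoc (cs.simple s), this]

lemma class_prod (cs : CoxeterSystem M W) {α β : List B} (h : β ∈ braidClass M α) :
    cs.wordProd β = cs.wordProd α ∧ β.length = α.length := by
  have h' : Relation.ReflTransGen (BraidMove M) α β := h
  clear h
  induction h' with
  | refl => exact ⟨rfl, rfl⟩
  | tail _ hm ih =>
    have := move_prod cs hm
    exact ⟨this.1.trans ih.1, this.2.trans ih.2⟩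

lemma rtg_symm {β γ : List B} (h : Relation.ReflTransGen (BraidMove M) β γ) :
    Relation.ReflTransGen (BraidMove M) γ β := by
  induction h with
  | refl => exact Relation.ReflTransGen.refl
  | tail _ hm ih => exact Relation.ReflTransGen.head (BraidMove.symm hm) ih

lemma conn_aux {α : List B} {β γ : List B} (hβ : β ∈ braidClass M α) (hγ : γ ∈ braidClass M α) :
    Relation.ReflTransGen (BraidMove M) β γ := by
  have h1 : Relation.ReflTransGen (BraidMove M) α β := hβ
  have h2 : Relation.ReflTransGen (BraidMove M) α γ := hγ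
  exact (rtg_symm h1).trans h2

lemma sys (cs : CoxeterSystem M W) (hM : IsTypeLambda M) (α : List B) (hα : cs.IsReduced α) :
    Sys (Rel M) (cls M α) := by
  refine ⟨?_, ?_, ?_, ?_, ?_⟩
  · rintro a b ⟨s, t, rfl, rfl, h⟩
    exact ⟨t, s, rfl, rfl, by rw [M.symmetric]; exact h⟩
  · rintro a b c ⟨s, t, rfl, rfl, h1⟩ ⟨t', u, ht, rfl, h2⟩ ⟨s', u', hs, hu, h3⟩
    rw [Option.some_inj] at ht hs hu
    subst ht hs hu
    exact hM.2 ⟨_, _, _, h1, h2, h3⟩
  · rintro g ⟨β, hβ, rfl⟩ c hc
    obtain ⟨γ, h1, h2⟩ := avail_move hc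
    exact ⟨γ, Relation.ReflTransGen.tail hβ h1, h2.symm⟩
  · rintro g ⟨β, hβ, rfl⟩ h ⟨γ, hγ, rfl⟩
    have h := conn_aux hβ hγ
    induction h with
    | refl => exact ⟨[], trivial, rfl⟩
    | tail h1 hm ih =>
      rename_i b c
      have hb : b ∈ braidClass M α := Relation.ReflTransGen.trans hβ h1
      obtain ⟨ds, d1, d2⟩ := ih hb
      obtain ⟨c', c1, c2⟩ := move_avail hm
      refine ⟨ds ++ [c'], ?_, ?_⟩
      · rw [Valid_append]
        refine ⟨d1, ?_⟩
        rw [d2]
        exact ⟨c1, trivial⟩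
      · rw [app_append, d2]
        exact c2.symm
  · rintro g ⟨β, hβ, rfl⟩ p h1 h2
    obtain ⟨s, t, hst, hlen, hβ'⟩ := avail_list h1
    -- the fourth letter is t
    have hl : (β.take p).length = p := by rw [List.length_take]; omega
    have e1 : toWord β (p+1) = some t := by
      rw [hβ']
      unfold toWord
      rw [List.append_assoc, List.getElem?_append_right (by omega), hl]
      simp
    have e3 : toWord β (p+3) = some t := by
      have := h2.2
      rw [show p+1+2 = p+3 from rfl] at this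
      rw [this, e1]
    unfold toWord at e3
    obtain ⟨l3, e3'⟩ := List.getElem?_eq_some_iff.mp e3
    have d3 := List.drop_eq_getElem_cons l3
    rw [e3', show p+3+1 = p+4 from rfl] at d3
    have hcp := class_prod cs hβ
    have hred : cs.length (cs.wordProd β) = β.length := by
      rw [hcp.1, hcp.2]; exact hα
    have hprod : cs.wordProd β = cs.wordProd (β.take p ++ [t, s] ++ β.drop (p+4)) := by
      conv_lhs => rw [hβ', d3]
      have := braid_rel cs hst
      simp only [CoxeterSystem.wordProd_append, CoxeterSystem.wordProd_cons,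
        CoxeterSystem.wordProd_nil, mul_one]
      rw [← mul_assoc (cs.simple s) (cs.simple t), this]
      simp only [mul_assoc, CoxeterSystem.simple_mul_simple_cancel_left]
    have hle := cs.length_wordProd_le (β.take p ++ [t, s] ++ β.drop (p+4))
    rw [← hprod, hred] at hle
    simp only [List.length_append, List.length_take, List.length_drop, List.length_cons,
      List.length_nil] at hle
    omega

lemma walk_of_list {α : List B} : ∀ (cs : List ℕ) (β : List B) (hβ : β ∈ braidClass M α),
    Valid (Rel M) (toWord β) cs → ∃ (γ : List B) (hγ : γ ∈ braidClass M α),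
      toWord γ = app (toWord β) cs ∧
      ∃ w : (braidGraph M α).Walk ⟨β, hβ⟩ ⟨γ, hγ⟩, w.length = cs.length
  | [], β, hβ, _ => ⟨β, hβ, rfl, SimpleGraph.Walk.nil, rfl⟩
  | c :: cs, β, hβ, hv => by
    obtain ⟨β', h1, h2⟩ := avail_move hv.1
    have hβ' : β' ∈ braidClass M α := Relation.ReflTransGen.tail hβ h1
    have hv2 := hv.2
    rw [← h2] at hv2
    obtain ⟨γ, hγ, e, w, hw⟩ := walk_of_list cs β' hβ' hv2
    refine ⟨γ, hγ, ?_, SimpleGraph.Walk.cons (show (braidGraph M α).Adj ⟨β, hβ⟩ ⟨β', hβ'⟩ from h1) w,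
      ?_⟩
    · rw [e, app, h2]
    · rw [SimpleGraph.Walk.length_cons, hw]; rfl

lemma list_of_walk {α : List B} {x y : braidClass M α} (w : (braidGraph M α).Walk x y) :
    ∃ cs, Valid (Rel M) (toWord x.1) cs ∧ app (toWord x.1) cs = toWord y.1 ∧
      cs.length = w.length := by
  induction w with
  | nil => exact ⟨[], trivial, rfl, rfl⟩
  | cons h w ih =>
    obtain ⟨cs, h1, h2, h3⟩ := ih
    obtain ⟨c, c1, c2⟩ := move_avail h
    refine ⟨c :: cs, ⟨c1, ?_⟩, ?_, ?_⟩
    · rw [← c2]; exact h1
    · rw [app, ← c2]; exact h2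
    · rw [SimpleGraph.Walk.length_cons, List.length_cons, h3]

theorem exists_antipodal (cs : CoxeterSystem M W) (hM : IsTypeLambda M) (α : List B)
    (hα : cs.IsReduced α) :
    ∃ u v : braidClass M α, interval (braidGraph M α) u v = Set.univ := by
  have H := sys cs hM α hα
  have hne : (cls M α).Nonempty := ⟨toWord α, α, Relation.ReflTransGen.refl, rfl⟩
  obtain ⟨f, ⟨βu, hu, rfl⟩, g, ⟨βv, hv, rfl⟩, h1, h2⟩ := H.main hne
    ((Finset.range α.length).filter (fun p => p ∈ P (Rel M) (cls M α))) (by
      intro p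
      rw [Finset.mem_filter, Finset.mem_range]
      refine ⟨fun h => h.2, fun h => ⟨?_, h⟩⟩
      obtain ⟨g, ⟨β, hβ, rfl⟩, hav⟩ := h
      obtain ⟨s, t, _, hlen, _⟩ := avail_list hav
      rw [(class_prod cs hβ).2] at hlen
      omega)
  set K := ((Finset.range α.length).filter (fun p => p ∈ P (Rel M) (cls M α))).card
  refine ⟨⟨βu, hu⟩, ⟨βv, hv⟩, ?_⟩
  have walks : ∀ x : braidClass M α, ∃ (w1 : (braidGraph M α).Walk ⟨βu, hu⟩ x)
      (w2 : (braidGraph M α).Walk x ⟨βv, hv⟩), w1.length + w2.length = K := by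
    rintro ⟨β, hβ⟩
    obtain ⟨as, bs, a1, a2, b1, b2, hl⟩ := h1 (toWord β) ⟨β, hβ, rfl⟩
    obtain ⟨γ, hγ, e, w1, l1⟩ := walk_of_list as βu hu a1
    rw [a2] at e
    have e' := toWord_inj e
    subst e'
    obtain ⟨δ, hδ, e2, w2, l2⟩ := walk_of_list bs γ hβ b1
    rw [b2] at e2
    have e2' := toWord_inj e2
    subst e2'
    exact ⟨w1, w2, by rw [l1, l2, hl]⟩
  have hdist : (braidGraph M α).dist ⟨βu, hu⟩ ⟨βv, hv⟩ = K := by
    obtain ⟨w1, w2, hw⟩ := walks ⟨βu, hu⟩
    apply le_antisymm
    · have := SimpleGraph.dist_le (w1.append w2)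
      rw [SimpleGraph.Walk.length_append, hw] at this
      exact this
    · obtain ⟨w, hw'⟩ := (SimpleGraph.Walk.reachable (w1.append w2)).exists_walk_length_eq_dist
      obtain ⟨es, e1, e2, e3⟩ := list_of_walk w
      rw [← hw', ← e3]
      exact h2 es e1 e2
  ext x
  simp only [Set.mem_univ, iff_true]
  obtain ⟨w1, w2, hw⟩ := walks x
  refine ⟨w1.append w2, ?_, ?_⟩
  · rw [SimpleGraph.Walk.length_append, hw, hdist]
  · rw [SimpleGraph.Walk.mem_support_append_iff]
    left
    exact w1.end_mem_support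

end

/-- Geodetic number of braid graphs in type `Λ`. -/
theorem result {B W : Type*} [Group W] {M : CoxeterMatrix B} (cs : CoxeterSystem M W)
    (hM : IsTypeLambda M) (α : List B) (hα : cs.IsReduced α)
    (h2 : (braidClass M α).Nontrivial) :
    (∃ u v : braidClass M α, interval (braidGraph M α) u v = Set.univ) ∧
      geodeticNumber (braidGraph M α) = 2 := by
  obtain ⟨u, v, huv⟩ := exists_antipodal cs hM α hα
  refine ⟨⟨u, v, huv⟩, ?_⟩
  have hsing : ∀ a : braidClass M α, interval (braidGraph M α) a a ⊆ {a} := by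
    rintro a x ⟨w, hw, hx⟩
    rw [SimpleGraph.dist_self] at hw
    have := SimpleGraph.Walk.eq_of_length_eq_zero hw
    cases w with
    | nil => simpa using hx
    | cons h w => simp at hw
  have hnt : ∃ a b : braidClass M α, a ≠ b := by
    obtain ⟨a, ha, b, hb, hab⟩ := h2
    exact ⟨⟨a, ha⟩, ⟨b, hb⟩, fun h => hab (congrArg Subtype.val h)⟩
  have huv' : u ≠ v := by
    rintro rfl
    obtain ⟨a, b, hab⟩ := hnt
    have ha : a ∈ interval (braidGraph M α) u u := by rw [huv]; trivial
    have hb : b ∈ interval (braidGraph M α) u u := by rw [huv]; trivial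
    have ha' := hsing u ha
    have hb' := hsing u hb
    rw [Set.mem_singleton_iff] at ha' hb'
    exact hab (ha'.trans hb'.symm)
  have hmem : 2 ∈ {n | ∃ X : Finset (braidClass M α), X.card = n ∧
      geodeticClosure (braidGraph M α) (X : Set (braidClass M α)) = Set.univ} := by
    refine ⟨{u, v}, Finset.card_pair huv', ?_⟩
    ext x
    simp only [Set.mem_univ, iff_true]
    refine ⟨u, by simp, v, by simp, ?_⟩
    rw [huv]; trivial
  apply le_antisymm (Nat.sInf_le hmem)
  apply le_csInf ⟨2, hmem⟩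
  rintro n ⟨X, hX, hcl⟩
  by_contra hlt
  push Not at hlt
  obtain ⟨a, b, hab⟩ := hnt
  have ha : a ∈ geodeticClosure (braidGraph M α) (X : Set (braidClass M α)) := by
    rw [hcl]; trivial
  have hb : b ∈ geodeticClosure (braidGraph M α) (X : Set (braidClass M α)) := by
    rw [hcl]; trivial
  obtain ⟨a1, ha1, a2, ha2, ha3⟩ := ha
  obtain ⟨b1, hb1, b2, hb2, hb3⟩ := hb
  have hc : ∀ y ∈ X, ∀ z ∈ X, y = z := by
    intro y hy z hz
    exact Finset.card_le_one.mp (by omega) y hy z hz
  have e1 := hc a2 ha2 a1 ha1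
  have e2 := hc b2 hb2 a1 ha1
  have e3 := hc b1 hb1 a1 ha1
  subst e1
  subst e2
  subst e3
  have ha' := hsing _ ha3
  have hb' := hsing _ hb3
  rw [Set.mem_singleton_iff] at ha' hb'
  exact hab (ha'.trans hb'.symm)

end Pool.Agent.Results.MP_31c3fe_co.GeodeticNumberTwo
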